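import Pool.Agent.K3h22.EX.Stm2

/-!
# Bricks PENCIL, REGDIR, REALREG of helper22 (EX project)
-/

set_option autoImplicit false

namespace Pool.Agent.K3h70.EX

open Pool.Agent.K3h22.EX MvPolynomial Filter Topology Metric Set

/-- regular pencils have at most `s` eigenvalues -/
theorem t_PENCIL : S_PENCIL := by
  intro s g A hA hsg m hm
  by_contra hcon
  push Not at hcon
  have hg : (g : ℝ) ≠ 0 := by
    have : 0 < g := by omega
    positivity
  have hgC : (g : ℂ) ≠ 0 := by exact_mod_cast hg
  set lam : Fin g → ℂ := fun k => Complex.exp (Real.pi * (k : ℕ) / g * Complex.I) with hlam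
  set B : Matrix (Fin s) (Fin s) ℂ := A.map (starRingEnd ℂ) with hB
  set u : Fin g → ℂ := fun k => Complex.exp (-(2 * Real.pi * (k : ℕ) / g * Complex.I)) with hu
  have hconj : ∀ k, (starRingEnd ℂ) (lam k) = lam k * u k := by
    intro k
    simp only [hlam, hu]
    rw [← Complex.exp_conj, ← Complex.exp_add]
    congr 1
    simp only [map_mul, map_div₀, Complex.conj_ofReal, Complex.conj_natCast, Complex.conj_I]
    ring
  have hdet : ∀ k, (u k • B + A).det = 0 := by
    intro k
    rw [← Matrix.exists_vecMul_eq_zero_iff]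
    refine ⟨fun i => (m k i : ℂ), ?_, ?_⟩
    · intro h
      apply hm k
      funext i
      have := congrFun h i
      simpa using this
    · funext j
      have h1 := hcon k j
      have h2 : lam k * (∑ i, (m k i : ℂ) * A i j) +
          (starRingEnd ℂ) (lam k * (∑ i, (m k i : ℂ) * A i j)) = 0 := by
        rw [Complex.add_conj, h1]
        simp
      rw [map_mul, hconj, map_sum, mul_assoc, ← mul_add] at h2
      have h3 := (mul_eq_zero.1 h2).resolve_left (Complex.exp_ne_zero _)
      simp only [Matrix.vecMul, dotProduct, Matrix.add_apply, Matrix.smul_apply, smul_eq_mul,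
        Pi.zero_apply, hB, Matrix.map_apply]
      rw [← h3, Finset.mul_sum, ← Finset.sum_add_distrib]
      refine Finset.sum_congr rfl fun i _ => ?_
      rw [map_mul, Complex.conj_ofReal]
      ring
  -- the polynomial
  set P : Polynomial ℂ := ((Polynomial.X : Polynomial ℂ) • B.map Polynomial.C +
    A.map Polynomial.C).det with hP
  have hdeg : P.natDegree ≤ s := by
    have := Polynomial.natDegree_det_X_add_C_le B A
    rwa [Fintype.card_fin] at this
  have heval : ∀ z, P.eval z = (z • B + A).det := by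
    intro z
    have h1 : P.eval z = Polynomial.evalRingHom z P := rfl
    rw [h1, hP, RingHom.map_det]
    congr 1
    ext i j
    simp
    ring
  have hP0 : P ≠ 0 := by
    intro h
    apply hA
    have h1 := heval 0
    rw [h] at h1
    simpa using h1.symm
  have hinj : Function.Injective u := by
    intro k l hkl
    have hprim := (Complex.isPrimitiveRoot_exp g (by omega : g ≠ 0)).inv
    have h1 : ∀ k : Fin g, u k = (Complex.exp (2 * Real.pi * Complex.I / g))⁻¹ ^ (k : ℕ) := by
      intro k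
      simp only [hu]
      rw [← Complex.exp_neg, ← Complex.exp_nat_mul]
      congr 1
      ring
    rw [h1, h1] at hkl
    exact Fin.ext (hprim.pow_inj k.2 l.2 hkl)
  have hroots : (Finset.univ.image u).val ≤ P.roots := by
    rw [Finset.val_le_iff_val_subset]
    intro z hz
    rw [Finset.mem_val, Finset.mem_image] at hz
    obtain ⟨k, -, rfl⟩ := hz
    rw [Polynomial.mem_roots hP0, Polynomial.IsRoot, heval]
    exact hdet k
  have h1 := Multiset.card_le_card hroots
  have h2 : (Finset.univ.image u).val.card = g := by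
    rw [Finset.card_val, Finset.card_image_of_injective _ hinj, Finset.card_univ, Fintype.card_fin]
  have h3 := Polynomial.card_roots' P
  omega

/-- homogeneous polynomials at multiples of a point -/
theorem eval_mul_homog {s n : ℕ} (p : MvPolynomial (Fin s) ℂ) (hp : p.IsHomogeneous n) (c : ℂ)
    (z : Fin s → ℂ) : eval (fun i => c * z i) p = c ^ n * eval z p := by
  rw [eval_eq, eval_eq, Finset.mul_sum]
  refine Finset.sum_congr rfl fun d hd => ?_
  have h1 : (∏ i ∈ d.support, (c * z i) ^ d i) = c ^ n * ∏ i ∈ d.support, z i ^ d i := by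
    simp only [mul_pow]
    rw [Finset.prod_mul_distrib, Finset.prod_pow_eq_pow_sum]
    congr 2
    have := hp (mem_support_iff.1 hd)
    rw [← this, Finsupp.weight_apply]
    simp [Finsupp.sum]
  rw [h1]
  ring

/-- the Jacobian determinant at multiples of a point -/
theorem jac_mul {s : ℕ} (Φ : Fin s → MvPolynomial (Fin s) ℂ) (n : Fin s → ℕ)
    (hΦ : ∀ a, (Φ a).IsHomogeneous (n a)) (c : ℂ) (z : Fin s → ℂ) :
    (jac Φ fun i => c * z i).det = (∏ a, c ^ (n a - 1)) * (jac Φ z).det := by
  have h1 : (jac Φ fun i => c * z i) = Matrix.of fun a b => c ^ (n a - 1) * (jac Φ z) a b := by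
    ext a b
    simp only [jac, Matrix.of_apply]
    exact eval_mul_homog _ (hΦ a).pderiv c z
  rw [h1, Matrix.det_mul_column]

theorem exp_pow_g {g : ℕ} (hg : g ≠ 0) (k : ℕ) :
    Complex.exp (Real.pi * (k : ℕ) / g * Complex.I) ^ g = (-1) ^ k := by
  have hgC : (g : ℂ) ≠ 0 := by exact_mod_cast hg
  rw [← Complex.exp_nat_mul]
  have h1 : (g : ℂ) * (Real.pi * (k : ℕ) / g * Complex.I) = (k : ℂ) * (Real.pi * Complex.I) := by
    field_simp
  rw [h1, Complex.exp_nat_mul, Complex.exp_pi_mul_I]

theorem t_REGDIR : S_DOMPT → S_PENCIL → S_BAIRE → S_REGDIR := by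
  intro hD hPen hB s g Φ e ζ₀ hsg hΦ hj
  by_contra hcon
  push Not at hcon
  have hg0 : g ≠ 0 := by omega
  obtain ⟨ζ, hζ1, hζ2⟩ := hD s Φ ζ₀ hj
  obtain ⟨A, m, hA, hm, hAm⟩ := hB s Φ ζ hζ1 hζ2 g
    (fun k => Complex.exp (Real.pi * (k : ℕ) / g * Complex.I)) (by
    intro ζ' h1 h2 k
    set w : ℂ := Complex.exp (Real.pi * ((k : ℕ) : ℂ) / g * Complex.I) with hw
    have hw0 : w ≠ 0 := Complex.exp_ne_zero _
    have hwg : w ^ g = (-1) ^ (k : ℕ) := exp_pow_g hg0 k
    obtain ⟨m, hm1, hm2⟩ := hcon (fun i => w * ζ' i) (fun a => by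
      rw [eval_mul_homog _ (hΦ a), pow_mul, hwg, ← pow_mul]
      rcases neg_one_pow_eq_or ℂ ((k : ℕ) * e a) with h | h
      · rw [h, one_mul, h1 a]
      · rw [h, neg_one_mul, Complex.neg_re, h1 a, neg_zero]) (by
      rw [jac_mul Φ _ hΦ]
      exact mul_ne_zero (Finset.prod_ne_zero_iff.2 fun a _ => pow_ne_zero _ hw0) h2)
    refine ⟨m, hm1, ?_⟩
    rw [Finset.mul_sum]
    have h3 : ∀ i, w * ((m i : ℂ) * ζ' i) = (m i : ℂ) * (w * ζ' i) := fun i => by ring
    simp only [h3]
    exact hm2)
  obtain ⟨k, j, hkj⟩ := hPen s g A hA hsg (fun k i => (m k i : ℝ)) (fun k h => hm k (by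
    funext i
    have := congrFun h i
    simpa using this))
  apply hkj
  have := hAm k j
  simpa using this

theorem t_REALREG : S_GENREAL → S_REALREG := by
  intro hG s g Φ e ζ₀ hg hΦ him hj
  have hg0 : g ≠ 0 := by omega
  have hgC : (g : ℂ) ≠ 0 := by exact_mod_cast hg0
  set M : Matrix (Fin s) (Fin s) (MvPolynomial (Fin s) ℂ) := Matrix.of fun a b => pderiv b (Φ a)
    with hM
  have hMe : ∀ z : Fin s → ℂ, eval z M.det = (jac Φ z).det := by
    intro z
    rw [RingHom.map_det]
    rfl
  have hM0 : M.det ≠ 0 := by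
    intro h
    apply hj
    rw [← hMe, h, map_zero]
  obtain ⟨a, ha1, ha2⟩ := hG s M.det hM0
  set w : ℂ := Complex.exp (Real.pi / (2 * g) * Complex.I) with hw
  have hw0 : w ≠ 0 := Complex.exp_ne_zero _
  have hwg : w ^ g = Complex.I := by
    rw [hw, ← Complex.exp_nat_mul]
    have h1 : (g : ℂ) * (Real.pi / (2 * g) * Complex.I) = Real.pi / 2 * Complex.I := by
      field_simp
    rw [h1, Complex.exp_pi_div_two_mul_I]
  refine ⟨fun i => w * (a i : ℂ), fun b => ?_, ?_, fun m hm => ?_⟩
  · rw [eval_mul_homog _ (hΦ b), pow_mul, hwg]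
    have hreal : (eval (fun i => (a i : ℂ)) (Φ b)).im = 0 := by
      rw [eval_eq, Complex.im_sum]
      refine Finset.sum_eq_zero fun d _ => ?_
      have h1 : (∏ i ∈ d.support, ((a i : ℝ) : ℂ) ^ d i) =
          ((∏ i ∈ d.support, (a i) ^ d i : ℝ) : ℂ) := by
        push_cast
        rfl
      rw [h1, Complex.im_mul_ofReal, him b d, zero_mul]
    have hI : Complex.I ^ (2 * e b + 1) = (((-1 : ℝ) ^ e b : ℝ) : ℂ) * Complex.I := by
      rw [pow_succ, pow_mul, Complex.I_sq]
      push_cast
      rfl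
    rw [hI, mul_assoc, Complex.re_ofReal_mul, Complex.I_mul_re, hreal, neg_zero, mul_zero]
  · rw [jac_mul Φ _ hΦ]
    refine mul_ne_zero (Finset.prod_ne_zero_iff.2 fun a _ => pow_ne_zero _ hw0) ?_
    rw [← hMe]
    exact ha1
  · have h1 : ∑ i, (m i : ℂ) * (w * (a i : ℂ)) = ((∑ i, (m i : ℝ) * a i : ℝ) : ℂ) * w := by
      push_cast
      rw [Finset.sum_mul]
      refine Finset.sum_congr rfl fun i _ => ?_
      ring
    rw [h1, Complex.re_ofReal_mul]
    refine mul_ne_zero (ha2 m hm) ?_
    have h2 : w = Complex.exp (((Real.pi / (2 * g) : ℝ) : ℂ) * Complex.I) := by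
      rw [hw]
      push_cast
      rfl
    rw [h2, Complex.exp_ofReal_mul_I_re]
    apply ne_of_gt
    apply Real.cos_pos_of_mem_Ioo
    have hgr : (2 : ℝ) ≤ g := by exact_mod_cast hg
    constructor
    · have : 0 < Real.pi / (2 * g) := by positivity
      linarith [Real.pi_pos]
    · rw [div_lt_div_iff₀ (by positivity) (by norm_num)]
      nlinarith [Real.pi_pos]

end Pool.Agent.K3h70.EX
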